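import Pool.Agent.Helper75.PX.Stmts3

set_option autoImplicit false

universe u

open Module Polynomial

namespace Pool.Agent.Helper45.PXB

open Pool.Agent.Helper75.PX

section
variable {K A : Type*} [Field K] [Ring A] [Algebra K A]

/-- the simplest cubic -/
noncomputable def ff (t : K) : K[X] := X ^ 3 - C t * X ^ 2 - C (t + 3) * X - 1
/-- the first conjugate -/
noncomputable def SS (t : K) : K[X] := X ^ 2 - C (t + 1) * X - 2
/-- the second conjugate -/
noncomputable def S2 (t : K) : K[X] := -X ^ 2 + C t * X + C (t + 2)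
/-- the cofactor -/
noncomputable def GG (t : K) : K[X] := 9 - (X - C t - 1) * (3 * X + C t + 3)

theorem aff {y u : A} {t c : K} (h : D3c y u t c) : aeval y (ff t) = 0 := by
  have h1 := h.hy
  simp only [ff, map_sub, map_mul, map_pow, aeval_X, aeval_C, map_one]
  rw [pow_succ, pow_two, h1, Algebra.smul_def, Algebra.smul_def]
  abel

theorem aSS {y u : A} {t c : K} (h : D3c y u t c) : u * y = aeval y (SS t) * u := by
  have h1 := h.huy
  rw [h1]
  simp only [SS, map_sub, map_mul, map_pow, aeval_X, aeval_C, map_ofNat, Algebra.smul_def, pow_two]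

theorem red {y u : A} {t c : K} (h : D3c y u t c) (P Q H : K[X]) (e : P = Q + ff t * H) :
    aeval y P = aeval y Q := by
  rw [e, map_add, map_mul, aff h, zero_mul, add_zero]

theorem uphi {y u : A} {t c : K} (h : D3c y u t c) (P : K[X]) :
    u * aeval y P = aeval y (P.comp (SS t)) * u := by
  induction P using Polynomial.induction_on with
  | C a =>
    rw [C_comp, aeval_C]
    exact (Algebra.commutes a u).symm
  | add p q hp hq => rw [map_add, mul_add, hp, hq, add_comp, map_add, add_mul]
  | monomial n a hn =>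
    have e : (C a * X ^ (n + 1) : K[X]) = (C a * X ^ n) * X := by rw [pow_succ, mul_assoc]
    rw [e, map_mul, aeval_X, ← mul_assoc, hn, mul_assoc, aSS h, mul_comp (C a * X ^ n) X, X_comp,
      map_mul, mul_assoc]

theorem comS {t : K} : (SS t).comp (SS t) = S2 t + ff t * (X - C (t + 2)) := by
  simp only [SS, S2, ff, sub_comp, mul_comp, pow_comp, X_comp, C_comp, ofNat_comp]
  simp only [map_add, map_one, map_ofNat]
  ring

theorem us {y u : A} {t c : K} (h : D3c y u t c) :
    u * aeval y (SS t) = aeval y (S2 t) * u := by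
  rw [uphi h, red h _ _ _ comS]

theorem N0 {t : K} (h3 : (3 : K) ≠ 0) (hz : ∀ ζ : K, ζ ^ 2 + ζ + 1 ≠ 0) :
    t ^ 2 + 3 * t + 9 ≠ 0 := by
  intro e
  apply hz (t / 3)
  field_simp
  linear_combination e

theorem dd {y u : A} {t c : K} (h : D3c y u t c) :
    aeval y (X - SS t) * aeval y ((1 + X) * GG t) = algebraMap K A (t ^ 2 + 3 * t + 9) := by
  rw [← map_mul, red h ((X - SS t) * ((1 + X) * GG t)) (C (t ^ 2 + 3 * t + 9))
    (-(3 * X + C t + 3) - GG t), aeval_C]
  simp only [SS, GG, ff, map_add, map_one, map_ofNat, map_mul, map_pow]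
  ring

theorem dd2 {y u : A} {t c : K} (h : D3c y u t c) :
    aeval y (X - S2 t) * aeval y (X * GG t) = algebraMap K A (t ^ 2 + 3 * t + 9) := by
  rw [← map_mul, red h ((X - S2 t) * (X * GG t)) (C (t ^ 2 + 3 * t + 9))
    (-(3 * X + C t + 3) + GG t), aeval_C]
  simp only [S2, GG, ff, map_add, map_one, map_ofNat, map_mul, map_pow]
  ring

/-- cancelling -/
theorem canc {N : K} (hN : N ≠ 0) {p d e : A} (hde : d * e = algebraMap K A N)
    (h : p * d = 0) : p = 0 := by
  have h1 : p * (d * e) = 0 := by rw [← mul_assoc, h, zero_mul]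
  rw [hde] at h1
  have h2 : (p * algebraMap K A N) * algebraMap K A N⁻¹ = 0 := by rw [h1, zero_mul]
  rwa [mul_assoc, ← map_mul, mul_inv_cancel₀ hN, map_one, mul_one] at h2

/-- cancelling u -/
theorem cancu {y u : A} {t c : K} (h : D3c y u t c) {p : A} (hp : p * u = 0) : p = 0 := by
  refine canc (K := K) (N := c) (d := u) (e := u * u) h.c0 ?_ hp
  rw [← mul_assoc, h.hu]

theorem cp {y : A} (P Q : K[X]) : aeval y P * aeval y Q = aeval y Q * aeval y P := by
  rw [← map_mul, mul_comm, map_mul]

/-- a polynomial of degree at most two that vanishes at y -/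
theorem deg2 [Nontrivial A] {y u : A} {t c : K} (h3 : (3 : K) ≠ 0)
    (hz : ∀ ζ : K, ζ ^ 2 + ζ + 1 ≠ 0) (h : D3c y u t c) (a b d : K)
    (h0 : aeval y (C a + C b * X + C d * X ^ 2) = 0) : a = 0 ∧ b = 0 ∧ d = 0 := by
  have hN := N0 (t := t) h3 hz
  have h1 : aeval y ((C a + C b * X + C d * X ^ 2).comp (SS t)) = 0 := by
    apply cancu h
    rw [← uphi h, h0, mul_zero]
  have h2 : aeval y (C b + C d * (X + SS t)) = 0 := by
    apply canc hN (dd h)
    rw [cp, ← map_mul]
    have e : (X - SS t) * (C b + C d * (X + SS t)) =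
        (C a + C b * X + C d * X ^ 2) - (C a + C b * X + C d * X ^ 2).comp (SS t) := by
      simp only [add_comp, mul_comp, C_comp, X_comp, pow_comp]
      ring
    rw [e, map_sub, h0, h1, sub_zero]
  have h4 : aeval y (C b + C d * (SS t + S2 t)) = 0 := by
    apply cancu h
    have h5 : u * aeval y (C b + C d * (X + SS t)) = 0 := by rw [h2, mul_zero]
    rw [uphi h] at h5
    rw [← h5]
    congr 1
    have e : (C b + C d * (X + SS t)).comp (SS t) =
        (C b + C d * (SS t + S2 t)) + ff t * (C d * (X - C (t + 2))) := by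
      simp only [add_comp, mul_comp, C_comp, X_comp, comS]
      ring
    exact (red h _ _ _ e).symm
  have h6 : algebraMap K A d * aeval y (X - S2 t) = 0 := by
    have e : C d * (X - S2 t) = (C b + C d * (X + SS t)) - (C b + C d * (SS t + S2 t)) := by ring
    have e2 : algebraMap K A d = aeval y (C d) := by rw [aeval_C]
    rw [e2, ← map_mul, e, map_sub, h2, h4, sub_zero]
  have h7 : algebraMap K A d = 0 := canc hN (dd2 h) h6
  have hd : d = 0 := by
    rw [← map_zero (algebraMap K A)] at h7
    exact (algebraMap K A).injective h7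
  have hb : b = 0 := by
    rw [hd] at h2
    rw [map_zero, zero_mul, add_zero, aeval_C, ← map_zero (algebraMap K A)] at h2
    exact (algebraMap K A).injective h2
  have ha : a = 0 := by
    rw [hd, hb] at h0
    rw [map_zero, zero_mul, zero_mul, add_zero, add_zero, aeval_C,
      ← map_zero (algebraMap K A)] at h0
    exact (algebraMap K A).injective h0
  exact ⟨ha, hb, hd⟩

/-- the relation -/
theorem rel {y u : A} {t c : K} (h3 : (3 : K) ≠ 0)
    (hz : ∀ ζ : K, ζ ^ 2 + ζ + 1 ≠ 0) (h : D3c y u t c) (P Q R : K[X])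
    (h0 : aeval y P + aeval y Q * u + aeval y R * (u * u) = 0) :
    aeval y P = 0 ∧ aeval y Q = 0 ∧ aeval y R = 0 := by
  have hN := N0 (t := t) h3 hz
  have hu1 : u * y = aeval y (SS t) * u := aSS h
  have hu2 : u * u * y = aeval y (S2 t) * (u * u) := by
    rw [mul_assoc, hu1, ← mul_assoc, us h, mul_assoc]
  have cy : ∀ P : K[X], y * aeval y P = aeval y P * y := fun P => by
    have := cp (y := y) X P
    rwa [aeval_X] at this
  have h1 : aeval y (Q * (X - SS t)) + aeval y (R * (X - S2 t)) * u = 0 := by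
    apply cancu h
    have e1 : y * (aeval y P + aeval y Q * u + aeval y R * (u * u)) -
        (aeval y P + aeval y Q * u + aeval y R * (u * u)) * y = 0 := by
      rw [h0, mul_zero, zero_mul, sub_zero]
    have e2 : y * (aeval y P + aeval y Q * u + aeval y R * (u * u)) -
        (aeval y P + aeval y Q * u + aeval y R * (u * u)) * y =
        (y * aeval y P - aeval y P * y) + (y * aeval y Q * u - aeval y Q * (u * y)) +
        (y * aeval y R * (u * u) - aeval y R * (u * u * y)) := by noncomm_ring
    rw [e2, hu1, hu2, cy P, cy Q, cy R] at e1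
    rw [← e1]
    simp only [map_mul, map_sub, aeval_X]
    noncomm_ring
  have h2 : aeval y (R * (X - S2 t) * (X - SS t)) = 0 := by
    apply cancu h
    have e1 : y * (aeval y (Q * (X - SS t)) + aeval y (R * (X - S2 t)) * u) -
        (aeval y (Q * (X - SS t)) + aeval y (R * (X - S2 t)) * u) * y = 0 := by
      rw [h1, mul_zero, zero_mul, sub_zero]
    have e2 : y * (aeval y (Q * (X - SS t)) + aeval y (R * (X - S2 t)) * u) -
        (aeval y (Q * (X - SS t)) + aeval y (R * (X - S2 t)) * u) * y =
        (y * aeval y (Q * (X - SS t)) - aeval y (Q * (X - SS t)) * y) +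
        (y * aeval y (R * (X - S2 t)) * u - aeval y (R * (X - S2 t)) * (u * y)) := by
      noncomm_ring
    rw [e2, hu1, cy, cy] at e1
    rw [← e1]
    rw [map_mul _ (R * (X - S2 t)), map_sub _ X (SS t), aeval_X]
    noncomm_ring
  have hR : aeval y R = 0 := by
    apply canc hN (dd2 h)
    apply canc hN (dd h)
    rw [← map_mul, ← map_mul]
    exact h2
  have hQ : aeval y Q = 0 := by
    apply canc hN (dd h)
    rw [← map_mul]
    rw [map_mul _ R, hR, zero_mul, zero_mul, add_zero] at h1
    exact h1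
  rw [hQ, hR, zero_mul, zero_mul, add_zero, add_zero] at h0
  exact ⟨h0, hQ, hR⟩

end

theorem st_B3c : ST_B3c.{u} := by
  intro K A _ _ _ _ y u t c h3 hz h
  rw [Fintype.linearIndependent_iff]
  intro g hg
  have e : aeval y (C (g (0, 0)) + C (g (1, 0)) * X + C (g (2, 0)) * X ^ 2) +
      aeval y (C (g (0, 1)) + C (g (1, 1)) * X + C (g (2, 1)) * X ^ 2) * u +
      aeval y (C (g (0, 2)) + C (g (1, 2)) * X + C (g (2, 2)) * X ^ 2) * (u * u) = 0 := by
    rw [← hg]
    simp only [Fintype.sum_prod_type, Fin.sum_univ_three, e3c, map_add, map_mul, map_pow, aeval_X,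
      aeval_C, Algebra.smul_def]
    simp only [Fin.val_zero, Fin.val_one, Fin.val_two, pow_zero, pow_one, mul_one, one_mul,
      pow_two]
    noncomm_ring
  obtain ⟨h0, h1, h2⟩ := rel h3 hz h _ _ _ e
  obtain ⟨a1, a2, a3⟩ := deg2 h3 hz h _ _ _ h0
  obtain ⟨b1, b2, b3⟩ := deg2 h3 hz h _ _ _ h1
  obtain ⟨c1, c2, c3⟩ := deg2 h3 hz h _ _ _ h2
  rintro ⟨i, j⟩
  fin_cases i <;> fin_cases j <;> assumption

end Pool.Agent.Helper45.PXB
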