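import Pool.Agent.Helper75.PX.Stmts

/-! Row WA of PX. -/

set_option autoImplicit false

universe u

open Module TensorProduct

namespace Pool.Agent.Helper75.PX

theorem st_WA : ST_WA.{u} := by
  intro K A _ _ _ _ _ _
  haveI : IsArtinianRing A := IsArtinianRing.of_finite K A
  obtain ⟨n, hn, D, hD, hDa, hfin, ⟨e⟩⟩ :=
    IsSimpleRing.exists_algEquiv_matrix_divisionRing_finite K A
  refine ⟨n, D, hD, hDa, Nat.pos_of_ne_zero hn.out, hfin, ?_, ?_, ⟨e⟩⟩
  · constructor
    intro x hx
    rw [Subalgebra.mem_center_iff] at hx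
    -- the scalar matrix
    haveI : NeZero n := hn
    have h1 : ∀ a : A, e.symm (Matrix.scalar (Fin n) x) * a = a * e.symm (Matrix.scalar (Fin n) x) := by
      intro a
      apply e.injective
      rw [map_mul, map_mul, e.apply_symm_apply]
      ext i j
      simp [Matrix.scalar_apply, Matrix.diagonal_mul, Matrix.mul_diagonal, hx]
    have h2 : e.symm (Matrix.scalar (Fin n) x) ∈ Subalgebra.center K A := by
      rw [Subalgebra.mem_center_iff]
      intro b
      exact (h1 b).symm
    rw [Algebra.IsCentral.center_eq_bot, Algebra.mem_bot] at h2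
    obtain ⟨k, hk⟩ := h2
    rw [Algebra.mem_bot]
    refine ⟨k, ?_⟩
    have h3 : Matrix.scalar (Fin n) x = algebraMap K (Matrix (Fin n) (Fin n) D) k := by
      rw [← e.apply_symm_apply (Matrix.scalar (Fin n) x), ← hk, AlgEquiv.commutes]
    have h4 := congrFun (congrFun h3 0) 0
    rw [Matrix.scalar_apply, Matrix.diagonal_apply_eq, Matrix.algebraMap_matrix_apply,
      if_pos rfl] at h4
    exact h4.symm
  · rw [e.toLinearEquiv.finrank_eq, Module.finrank_matrix]
    simp [sq]

end Pool.Agent.Helper75.PX
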